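import Pool.Agent.N625.PT.X8
import Pool.Agent.Run7.h672.XC.X7
import Pool.Agent.Run7.h414.DP.XR

/-!
# Representations of type `(a, 0)` of random multiples of a small primorial, for random integers with determinantal digits

The digits of the random integer `v` are given by a determinantal random set `S` of positions (a determinantal point process
with an arbitrary Hermitian kernel): the digit number `i` is `y i` if `i ∈ S` and `x i ≠ y i` otherwise. Examples (their
existence is not used and not formalised): the edges of a uniform spanning tree of a graph with `k` edges; stationary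
determinantal processes with any symbol which is not almost everywhere `0` or almost everywhere `1` (for example the discrete
sine process with any density); independent digits.

Definitions used (in `Pool.Agent.Run7.h414.DP.Law` and `Pool.Agent.Run7.h414.DP.Fam`): `DetLaw`, `GoodPos`, `DetDigits`
(used with `t = 0`: `0 ≤ p v ≤ μ v` with the law `μ` of an integer with determinantal digits).

Method: the characteristic function is `det (1 + D A)`; the inequality `|det N|² ≤ exp (tr N* N - k)` for
`N = 1 + B D B*`, `A = B* B`, bounds it by `exp (- E)` with an energy `E` which is at least a constant times the number of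
the places where the frequency is far from the rational numbers with small denominators. With this input the sieve and the
circle method of the starting library for exchangeable blocks (`Pool.Agent.N625.PT`, in the form for classes of laws of
`Pool.Agent.Run7.h672.XC`) go through.
-/

set_option autoImplicit false

open Finset
open Pool.Agent.Run7.h414.DP (DC DC_sum DC_nonneg DetDigits fam_dc dc_rcls)

namespace Pool.Agent.Results.MP_778b46_nt.DeterminantalMultiples

/-- The `i`-th `a`-prime: the `(a + 1)`-fold iterate of `k ↦ k`-th prime, applied to `i`. -/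
noncomputable def ip (a i : ℕ) : ℕ := Nat.iterate (fun k : ℕ => Nat.nth Nat.Prime (k - 1)) (a + 1) i

open Classical in
/-- The `a`-primes `≤ x`. -/
noncomputable def IPs (a x : ℕ) : Finset ℕ := (Icc 1 x).filter (fun u => ∃ i : ℕ, 0 < i ∧ ip a i = u)

/-- the product of `1 - 1/q` over the primes `q ≤ y` -/
noncomputable def V (y : ℕ) : ℝ := ∏ q ∈ (Icc 1 y).filter Nat.Prime, (1 - 1 / (q : ℝ))

/-- the multiple of the product of the primes `≤ y` given by the integers `h` and `c + κ v` -/
def Nv (y h : ℕ) (c κ : ℤ) (v : ℕ) : ℤ := ((primorial y * h : ℕ) : ℤ) * (c + κ * v)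

/-- the `u ∈ S` such that `n - u` is prime -/
def Rep (S : Finset ℕ) (n : ℤ) : Finset ℕ := S.filter (fun u : ℕ => (n - u).toNat.Prime)

/-- For every `a`: there are at least `c₀ x / log ^ (a + 1) x` `a`-primes `u ≤ x` (`c₀ > 0` depends on `a`, `x` is
large), and the following holds. Let `b ≥ 2`, `L` and `η > 0`, and let `v < b ^ k` be the random integer with `k` determinantal
digits in base `b` (`DetDigits b L η 0 k p`). Let `y` be between `K₀ log k` and `K₁ log k`, `M` the product of the primes
`≤ y`, and `X` an integer with `b ^ k ≤ X k ^ C`, `X ≤ b ^ k k ^ C`. Then for all `|c| ≤ B b ^ k` and all `1 ≤ h ≤ k ^ J` the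
following has a probability of at most `ε`: `N = M h (c + κ v)` is larger than `X` and has fewer than
`(1 - ε) #U / (V y log b ^ k)` representations `N = u + q`, `u ∈ U` and `q` a prime, where `U` is the set of all `a`-primes
`u ≤ X`. -/
theorem result (a : ℕ) : (∃ c₀ : ℝ, 0 < c₀ ∧ ∃ x₀ : ℕ, ∀ x : ℕ, x₀ ≤ x →
      c₀ * x ≤ ((IPs a x).card : ℝ) * Real.log x ^ (a + 1)) ∧
    ∀ b L : ℕ, 2 ≤ b → ∀ η : ℝ, 0 < η → ∀ κ : ℤ, κ ≠ 0 →
    ∀ (B J C : ℕ) (ε : ℝ), 0 < ε → ε ≤ 1 → ∃ K₀ : ℕ, ∀ K₁ : ℕ, ∃ k₀ : ℕ, ∀ k : ℕ, k₀ ≤ k →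
    ∀ p : ℕ → ℝ, DetDigits b L η 0 k p → ∀ y : ℕ, K₀ * Real.log k ≤ y → y ≤ K₁ * Real.log k →
    ∀ c : ℤ, |c| ≤ B * (b : ℤ) ^ k → ∀ h : ℕ, 1 ≤ h → h ≤ k ^ J → ∀ X : ℕ, b ^ k ≤ X * k ^ C → X ≤ b ^ k * k ^ C →
      ∑ v ∈ range (b ^ k), (if (X : ℤ) < Nv y h c κ v ∧ ((Rep (IPs a X) (Nv y h c κ v)).card : ℝ) <
          (1 - ε) * ((IPs a X).card / (V y * (k * Real.log b))) then p v else 0) ≤ ε := by
  classical
  refine ⟨Pool.Agent.R518.IP.IPs_low a, ?_⟩
  intro b L hb η hη κ hκ B J C ε hε hε1
  have hcls := dc_rcls b L hb η hη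
  obtain ⟨K₀, h0⟩ := Pool.Agent.Run7.h672.XC.dense_sum hcls κ hκ B J (2 * (a + 1) + 1) C ε hε hε1
  refine ⟨K₀, fun K₁ => ?_⟩
  obtain ⟨k₀, h0⟩ := h0 K₁
  obtain ⟨k₁, h1⟩ := Pool.Agent.N625.PT.ip_dense b C a hb
  refine ⟨max k₀ k₁, fun k hk p hp y hy1 hy2 c hc h hh1 hhJ X hX1 hX2 => ?_⟩
  obtain ⟨μ, hμ, hpμ⟩ := fam_dc hp
  refine le_trans (sum_le_sum (g := fun v => if (X : ℤ) < Nv y h c κ v ∧ ((Rep (IPs a X) (Nv y h c κ v)).card : ℝ) <
          (1 - ε) * ((IPs a X).card / (V y * (k * Real.log b))) then μ v else 0) fun v _ => ?_) ?_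
  · have h2 := (hpμ v).2
    rw [pow_zero, one_mul] at h2
    split_ifs
    · exact h2
    · exact le_rfl
  refine le_trans (le_of_eq ?_) (h0 k (by omega) μ hμ y hy1 hy2 c hc h hh1 hhJ X hX1 hX2 (IPs a X)
    (Pool.Agent.N625.PT.IPs_sub a X) (Pool.Agent.N625.PT.IPs_prime a X) (h1 k (by omega) X hX1 hX2))
  apply sum_congr rfl
  intro v _
  congr!

end Pool.Agent.Results.MP_778b46_nt.DeterminantalMultiples
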