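import Mathlib
import Pool.Agent.Run7.h757.MW.Bin7
import Pool.Agent.Run7.h374.MW.POLY
import Pool.Agent.Run7.h374.MW.LOW1
import Pool.Agent.Run7.h757.MW.Low2b
import Pool.Agent.Run7.h871.MW.SHORTP
import Pool.Agent.Run7.h136.MW.REGIT
import Pool.Agent.Run7.h888.MW.SHORTIT

set_option autoImplicit false

/-!
# Iterated prime-indexed primes: sums of an `a`-prime and a generic multiple of a polynomial at a `b`-prime

Project MW of this run (helper757 and team). The proof: the mean square over `lam` of the exponential sums of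
`⌊lam f(q)⌋` away from the major arc at 0 (the only one for generic `lam`), iterated prime-indexed primes in almost all
intervals of length `X^(1/3) log^C X` (from project MK of this run, through
`MP_028722_nt.AllShortPolynomialSequences`) for the comparison with short windows, and for further generic terms the
doubling of the saving (`Run7.h56.MW.t_STEP`).
-/

open Polynomial Finset MeasureTheory Filter

namespace Pool.Agent.Results.MP_778b46_nt.GenericMultiples

/-- The `x`-th `i`-prime (`x ≥ 1`): the `(i + 1)`-fold iterate at `x` of the map which sends `k` to the `k`-th prime. -/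
noncomputable def iprime (i x : ℕ) : ℕ := Nat.iterate (fun k : ℕ => Nat.nth Nat.Prime (k - 1)) (i + 1) x

/-- `M = (a-prime) + ⌊lam 0 * f((b 0)-prime)⌋ + ∑ ⌊lam (i + 1) * ((b (i + 1))-prime) ^ e i⌋`, with `f > 0` at the
`(b 0)`-prime. -/
def IsSum (J a : ℕ) (b : Fin (J + 1) → ℕ) (f : ℤ[X]) (e : Fin J → ℕ) (lam : Fin (J + 1) → ℝ)
    (M : ℕ) : Prop :=
  ∃ (x : ℕ) (y : Fin (J + 1) → ℕ), 0 < x ∧ (∀ i, 0 < y i) ∧
    0 < f.eval ((iprime (b 0) (y 0) : ℕ) : ℤ) ∧
    (M : ℤ) = iprime a x + ⌊lam 0 * ((f.eval ((iprime (b 0) (y 0) : ℕ) : ℤ) : ℤ) : ℝ)⌋ +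
      ∑ i : Fin J, ⌊lam i.succ * (iprime (b i.succ) (y i.succ) : ℝ) ^ e i⌋

open Classical in
/-- Let `J ≥ 0`. For almost all `lam ∈ (0, ∞)^(J+1)` (Lebesgue measure), for ALL `a ≥ 0` and `b 0, ..., b J ≥ 0`, ALL
integer polynomials `f` of degree `k ≥ 1` with positive leading coefficient and ALL exponents `e i ≥ 1` (`i < J`), with
`δ = min (2/3) (1/k)`: for every `β > 0` with `β > 1 - 2^J δ`, all but `O(X^β)` of the integers `M ≤ X` are sums
`(a-prime) + ⌊lam 0 * f((b 0)-prime)⌋ + ∑ ⌊lam (i + 1) * ((b (i + 1))-prime) ^ e i⌋`; and if `2^J δ > 1`, then ALL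
large integers `M` are. For `J = 0`, `f = X`: all but `O(X^(1/3 + ε))` of the integers `M ≤ X` are
`(a-prime) + ⌊lam * (b-prime)⌋`; for `J = 1`, `f = X`: all large integers are
`(a-prime) + ⌊lam 0 * (b 0-prime)⌋ + ⌊lam 1 * (b 1-prime)⌋`. -/
theorem result (J : ℕ) : ∀ᵐ lam : Fin (J + 1) → ℝ, (∀ i, 0 < lam i) →
    ∀ (a : ℕ) (b : Fin (J + 1) → ℕ) (f : ℤ[X]) (e : Fin J → ℕ),
    1 ≤ f.natDegree → 0 < f.leadingCoeff → (∀ i, 1 ≤ e i) →
      (∀ β : ℝ, 0 < β → 1 - 2 ^ J * min (2 / 3) (1 / (f.natDegree : ℝ)) < β →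
        ∃ C : ℝ, ∀ X : ℕ, 1 ≤ X →
          (({M ∈ range (X + 1) | ¬ IsSum J a b f e lam M} : Finset ℕ).card : ℝ) ≤
            C * (X : ℝ) ^ β) ∧
      (1 < 2 ^ J * min (2 / 3) (1 / (f.natDegree : ℝ)) →
        ∀ᶠ M : ℕ in atTop, IsSum J a b f e lam M) :=
  Pool.Agent.Run7.h757.MW.final_ip Pool.Agent.Run7.h374.MW.t_LOW1 Pool.Agent.Run7.h757.MW.low2
    Pool.Agent.Run7.h871.MW.t_SHORTP Pool.Agent.Run7.h374.MW.t_POLY Pool.Agent.Run7.h136.MW.t_REGIT
    Pool.Agent.Run7.h888.MW.t_SHORTIT J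

end Pool.Agent.Results.MP_778b46_nt.GenericMultiples
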