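import Pool.Agent.N625.PT.X8
import Pool.Agent.Run7.h672.XC.X7

/-!
# Representations of type `(a, 0)` of random multiples of a small primorial, for the random integers written by independent random words

The definitions `len`, `Words`, `cat`, `noRest`, `cutWord`, `WordLaw` are in `Pool.Agent.Run7.h672.CC.Defs`.

Method: a strong renewal theorem for the places at which a word ends; between two such places, at a positive proportion of
the places, two words which do not commute can be exchanged (`w w'` and `w' w` have the same length, the same probability,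
and different digits), whatever the language is; hence the characteristic function is exponentially small in the number of the
places at which the frequency is not close to a rational number with a small denominator (`Pool.Agent.Run7.h672.CC`). With this
input the sieve and the circle method of the starting library for exchangeable blocks (`Pool.Agent.N625.PT`) go through
(`Pool.Agent.Run7.h672.XC`).
-/

set_option autoImplicit false

open Finset
open Pool.Agent.Run7.h672.CC

namespace Pool.Agent.Results.MP_778b46_nt.WordMultiples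

/-- The `i`-th `a`-prime: the `(a + 1)`-fold iterate of `k ↦ k`-th prime, applied to `i`. -/
noncomputable def ip (a i : ℕ) : ℕ := Nat.iterate (fun k : ℕ => Nat.nth Nat.Prime (k - 1)) (a + 1) i

open Classical in
/-- The `a`-primes `≤ x`. -/
noncomputable def IPs (a x : ℕ) : Finset ℕ := (Icc 1 x).filter (fun u => ∃ i : ℕ, 0 < i ∧ ip a i = u)

/-- the product of `1 - 1/q` over the primes `q ≤ y` -/
noncomputable def V (y : ℕ) : ℝ := ∏ q ∈ (Icc 1 y).filter Nat.Prime, (1 - 1 / (q : ℝ))

/-- the multiple of the product of the primes `≤ y` given by the integers `h` and `c + κ v` -/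
def Nv (y h : ℕ) (c κ : ℤ) (v : ℕ) : ℤ := ((primorial y * h : ℕ) : ℤ) * (c + κ * v)

/-- the `u ∈ S` such that `n - u` is prime -/
def Rep (S : Finset ℕ) (n : ℤ) : Finset ℕ := S.filter (fun u : ℕ => (n - u).toNat.Prime)

/-- For every `a`: there are at least `c₀ x / log ^ (a + 1) x` `a`-primes `u ≤ x` (`c₀ > 0` depends on `a`, `x` is
large), and the following holds. Let `W` be the law of a random word in base `b` (`Words b W`: any language, finite or infinite, lengths with an exponential
moment and without a common divisor, and two words which do not commute), and let `v < b ^ k` be the random integer whose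
digits are written by independent random words with the law `W`, conditioned on the total length `k`, or cut after `k`
digits (`WordLaw b W k p`). Let `y` be between `K₀ log k` and `K₁ log k`, `M` the product of the primes
`≤ y`, and `X` an integer with `b ^ k ≤ X k ^ C`, `X ≤ b ^ k k ^ C`. Then for all `|c| ≤ B b ^ k` and all `1 ≤ h ≤ k ^ J` the
following has a probability of at most `ε`: `N = M h (c + κ v)` is larger than `X` and has fewer than
`(1 - ε) #U / (V y log b ^ k)` representations `N = u + q`, `u ∈ U` and `q` a prime, where `U` is the set of all `a`-primes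
`u ≤ X`. -/
theorem result (a : ℕ) : (∃ c₀ : ℝ, 0 < c₀ ∧ ∃ x₀ : ℕ, ∀ x : ℕ, x₀ ≤ x →
      c₀ * x ≤ ((IPs a x).card : ℝ) * Real.log x ^ (a + 1)) ∧
    ∀ (b : ℕ) (W : ℕ → ℕ → ℝ), Words b W → ∀ κ : ℤ, κ ≠ 0 →
    ∀ (B J C : ℕ) (ε : ℝ), 0 < ε → ε ≤ 1 → ∃ K₀ : ℕ, ∀ K₁ : ℕ, ∃ k₀ : ℕ, ∀ k : ℕ, k₀ ≤ k →
    ∀ p : ℕ → ℝ, WordLaw b W k p → ∀ y : ℕ, K₀ * Real.log k ≤ y → y ≤ K₁ * Real.log k →
    ∀ c : ℤ, |c| ≤ B * (b : ℤ) ^ k → ∀ h : ℕ, 1 ≤ h → h ≤ k ^ J → ∀ X : ℕ, b ^ k ≤ X * k ^ C → X ≤ b ^ k * k ^ C →
      ∑ v ∈ range (b ^ k), (if (X : ℤ) < Nv y h c κ v ∧ ((Rep (IPs a X) (Nv y h c κ v)).card : ℝ) <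
          (1 - ε) * ((IPs a X).card / (V y * (k * Real.log b))) then p v else 0) ≤ ε := by
  classical
  refine ⟨Pool.Agent.R518.IP.IPs_low a, ?_⟩
  intro b W hW κ hκ B J C ε hε hε1
  obtain ⟨L, T, hcls⟩ := Pool.Agent.Run7.h672.XC.word_rcls hW
  have hb := hW.two
  obtain ⟨K₀, h0⟩ := Pool.Agent.Run7.h672.XC.dense_sum hcls κ hκ B J (2 * (a + 1) + 1) C ε hε hε1
  refine ⟨K₀, fun K₁ => ?_⟩
  obtain ⟨k₀, h0⟩ := h0 K₁
  obtain ⟨k₁, h1⟩ := Pool.Agent.N625.PT.ip_dense b C a hb
  refine ⟨max k₀ k₁, fun k hk p hp y hy1 hy2 c hc h hh1 hhJ X hX1 hX2 => ?_⟩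
  refine le_trans (le_of_eq ?_) (h0 k (by omega) p hp y hy1 hy2 c hc h hh1 hhJ X hX1 hX2 (IPs a X)
    (Pool.Agent.N625.PT.IPs_sub a X) (Pool.Agent.N625.PT.IPs_prime a X) (h1 k (by omega) X hX1 hX2))
  apply sum_congr rfl
  intro v _
  congr!

end Pool.Agent.Results.MP_778b46_nt.WordMultiples
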